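import Pool.Agent.Lock.Poly

set_option autoImplicit false

/-!
# MP_b82809_co, CommonFace

Lockeberg's conjecture holds for two vertices that lie in a common `g`-face, for every partition
of the dimension that has a part of size at least `g` or has at least `g` parts.
-/

namespace Pool.Agent.Results.MP_b82809_co.CommonFace

open Module

/-- `P` is a polytope: the convex hull of a finite set of points. -/
def IsPolytope {n : ℕ} (P : Set (EuclideanSpace ℝ (Fin n))) : Prop :=
  ∃ S : Finset (EuclideanSpace ℝ (Fin n)), P = convexHull ℝ (S : Set (EuclideanSpace ℝ (Fin n)))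

/-- The dimension of a nonempty set: the dimension of the space of directions of its affine
span. -/
noncomputable def dim {n : ℕ} (F : Set (EuclideanSpace ℝ (Fin n))) : ℕ :=
  finrank ℝ (vectorSpan ℝ F)

/-- `F` is a face of `P`: a nonempty set of the form `{x ∈ P | ∀ y ∈ P, l y ≤ l x}` for a linear
functional `l` (with `l = 0` this is `P` itself). -/
def IsFace {n : ℕ} (P F : Set (EuclideanSpace ℝ (Fin n))) : Prop :=
  F.Nonempty ∧ IsExposed ℝ P F

/-- `v` is a vertex of `P`: an extreme point. -/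
def IsVertex {n : ℕ} (P : Set (EuclideanSpace ℝ (Fin n))) (v : EuclideanSpace ℝ (Fin n)) : Prop :=
  v ∈ P.extremePoints ℝ

/-- `L` is a path of `m`-faces of `P` from `v` to `w`: a nonempty finite sequence of faces of `P`
of dimension `m`, the first contains `v`, the last contains `w`, and the intersection of any two
consecutive ones is nonempty of dimension `m - 1`. -/
structure IsPath {n : ℕ} (P : Set (EuclideanSpace ℝ (Fin n))) (m : ℕ)
    (v w : EuclideanSpace ℝ (Fin n)) (L : List (Set (EuclideanSpace ℝ (Fin n)))) : Prop where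
  faces : ∀ F ∈ L, IsFace P F ∧ dim F = m
  start : ∃ F, L.head? = some F ∧ v ∈ F
  finish : ∃ F, L.getLast? = some F ∧ w ∈ F
  steps : L.IsChain fun F F' => (F ∩ F').Nonempty ∧ dim (F ∩ F') + 1 = m

open Pool.Agent.Lock in
/-- Let `v ≠ w` be vertices of the polytope `P` in a common face `G`, and let
`dim P = c 0 + ⋯ + c (k-1)` with all `c i ≥ 1`. If some `c i ≥ dim G` or `k ≥ dim G`, then there
are `k` disjoint paths from `v` to `w`, the `i`-th one a path of `c i`-faces. -/
theorem result (n : ℕ) (P : Set (EuclideanSpace ℝ (Fin n))) (hP : IsPolytope P)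
    (v w : EuclideanSpace ℝ (Fin n)) (hv : IsVertex P v) (hw : IsVertex P w) (hvw : v ≠ w)
    (G : Set (EuclideanSpace ℝ (Fin n))) (hG : IsFace P G) (hvG : v ∈ G) (hwG : w ∈ G)
    (k : ℕ) (c : Fin k → ℕ) (hc : ∀ i, 1 ≤ c i) (hsum : ∑ i, c i = dim P)
    (h : (∃ i, dim G ≤ c i) ∨ dim G ≤ k) :
    ∃ L : Fin k → List (Set (EuclideanSpace ℝ (Fin n))),
      (∀ i, IsPath P (c i) v w (L i)) ∧
      ∀ i j, i ≠ j → ∀ F ∈ L i, ∀ F' ∈ L j, ∀ u, IsVertex P u → u ∈ F → u ∈ F' →
        u = v ∨ u = w := by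
  classical
  obtain ⟨S, rfl⟩ := hP
  set P := convexHull ℝ (S : Set (EuclideanSpace ℝ (Fin n))) with hPdef
  have hK : IsCompact P := S.finite_toSet.isCompact_convexHull ℝ
  have hcv : Convex ℝ P := convex_convexHull ℝ _
  have hfin : (P.extremePoints ℝ).Finite := S.finite_toSet.subset extremePoints_convexHull_subset
  haveI : Finite {p // p ∈ P.extremePoints ℝ} := hfin
  have hφ : ∀ p, 0 < LinearMap.snd ℝ (EuclideanSpace ℝ (Fin n)) ℝ (vec P p) := by
    intro p
    simp [vec]
  have hE := allExt hcv hfin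
  set a : {p // p ∈ P.extremePoints ℝ} := ⟨v, hv⟩ with ha
  set b : {p // p ∈ P.extremePoints ℝ} := ⟨w, hw⟩ with hb
  have hab : a ≠ b := fun h => hvw (congrArg Subtype.val h)
  obtain ⟨hG1, hG2, hG3⟩ := face_of_exposed hK hcv hfin hG.2 hG.1
  have hPne : P.Nonempty := ⟨v, extremePoints_subset hv⟩
  obtain ⟨-, hP2, hP3⟩ := face_of_exposed hK hcv hfin (IsExposed.refl P) hPne
  have huniv : {p : {p // p ∈ P.extremePoints ℝ} | p.1 ∈ P} = Set.univ := by
    ext p
    exact ⟨fun _ => trivial, fun _ => (extremePoints_subset p.2 : p.1 ∈ P)⟩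
  have hg : dim G + 1 = rk (vec P) {p | p.1 ∈ G} := by
    have := dim_pts P hG3
    rw [← hG2] at this
    exact this
  have hd : dim P + 1 = rk (vec P) Set.univ := by
    have := dim_pts P hP3
    rw [← hP2, huniv] at this
    exact this
  obtain ⟨U, hU, hpath, hdisj⟩ := lockeberg_config (κ := Fin k) hφ hE Face.univ hG1
    (Set.subset_univ _) (a := a) (b := b) hvG hwG hab hg c hc (by rw [hsum, hd])
    (by simpa using h)
  have key : ∀ i, ∃ L : List (Set (EuclideanSpace ℝ (Fin n))), IsPath P (c i) v w L ∧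
      ∀ F ∈ L, ∃ A, Face (vec P) A ∧ A.Nonempty ∧ A ⊆ U i ∧ F = pts P A := by
    intro i
    obtain ⟨X, Y, haX, hbY, hX, hY, hXY⟩ := hpath i (hc i)
    obtain ⟨l, hl, hlast⟩ := List.exists_isChain_cons_of_relationReflTransGen hXY
    have hgood : ∀ A ∈ X :: l, Good (vec P) (U i) (c i) A := by
      have hall := hl
      intro A hA
      rcases List.mem_cons.1 hA with rfl | hA'
      · exact hX
      · obtain ⟨j, hj, hjA⟩ := List.getElem_of_mem hA'
        have := List.isChain_iff_getElem.1 hl j (by simpa using hj)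
        have h2 := this.2.1
        rw [List.getElem_cons_succ] at h2
        rw [hjA] at h2
        exact h2
    have hne : ∀ A ∈ X :: l, A.Nonempty := by
      intro A hA
      rw [Set.nonempty_iff_ne_empty]
      rintro rfl
      have := (hgood _ hA).2.2
      rw [rk_empty] at this
      omega
    refine ⟨(X :: l).map (pts P), ⟨?_, ?_, ?_, ?_⟩, ?_⟩
    · intro F hF
      obtain ⟨A, hA, rfl⟩ := List.mem_map.1 hF
      obtain ⟨e1, e2, e3⟩ := exposed_of_face hK hcv hfin (hgood A hA).1 (hne A hA)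
      refine ⟨⟨e2, e1⟩, ?_⟩
      have := dim_pts P (hne A hA)
      rw [(hgood A hA).2.2] at this
      exact Nat.succ_injective this
    · exact ⟨pts P X, by simp, subset_convexHull ℝ _ ⟨a, haX, rfl⟩⟩
    · refine ⟨pts P Y, ?_, subset_convexHull ℝ _ ⟨b, hbY, rfl⟩⟩
      rw [List.getLast?_map, List.getLast?_eq_getLast_of_ne_nil (List.cons_ne_nil X l), hlast]
      rfl
    · rw [List.isChain_map]
      refine hl.imp fun A B hAB => ?_
      obtain ⟨h1, h2, h3⟩ := hAB
      have hne' : (A ∩ B).Nonempty := by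
        rw [Set.nonempty_iff_ne_empty]
        intro h4
        rw [h4, rk_empty] at h3
        have := hc i
        omega
      rw [pts_inter hK hcv hfin h1.1 h2.1 hne']
      refine ⟨?_, ?_⟩
      · obtain ⟨p, hp⟩ := hne'
        exact ⟨p.1, subset_convexHull ℝ _ ⟨p, hp, rfl⟩⟩
      · have := dim_pts P hne'
        rw [h3] at this
        exact this
    · intro F hF
      obtain ⟨A, hA, rfl⟩ := List.mem_map.1 hF
      exact ⟨A, (hgood A hA).1, hne A hA, (hgood A hA).2.1, rfl⟩
  choose L hL1 hL2 using key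
  refine ⟨L, hL1, fun i j hij F hF F' hF' u hu huF huF' => ?_⟩
  obtain ⟨A, hA1, hA2, hA3, rfl⟩ := hL2 i F hF
  obtain ⟨B, hB1, hB2, hB3, rfl⟩ := hL2 j F' hF'
  have e1 := (exposed_of_face hK hcv hfin hA1 hA2).2.2
  have e2 := (exposed_of_face hK hcv hfin hB1 hB2).2.2
  have f1 : (⟨u, hu⟩ : {p // p ∈ P.extremePoints ℝ}) ∈ A := by
    rw [← e1]; exact huF
  have f2 : (⟨u, hu⟩ : {p // p ∈ P.extremePoints ℝ}) ∈ B := by
    rw [← e2]; exact huF'
  have h4 := hdisj i j hij (hc i) (hc j) ⟨hA3 f1, hB3 f2⟩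
  rcases h4 with h4 | h4
  · exact Or.inl (congrArg Subtype.val h4)
  · exact Or.inr (congrArg Subtype.val h4)

end Pool.Agent.Results.MP_b82809_co.CommonFace
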