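import Pool.Agent.Lock.Facets

set_option autoImplicit false

/-!
# MP_b82809_co, LowDimClosure

Lockeberg's conjecture holds for two vertices of a polytope that lie in a common face from the
class `Nice`, for every partition of the dimension. The class holds all polytopes of dimension at
most three and all `d`-polytopes with at most `d + 3` facets, and it is closed under products,
free sums and covers by faces.
-/

namespace Pool.Agent.Results.MP_b82809_co.LowDimClosure

open Module

/-- `P` is a polytope: the convex hull of a finite set of points. -/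
def IsPolytope {n : ℕ} (P : Set (EuclideanSpace ℝ (Fin n))) : Prop :=
  ∃ S : Finset (EuclideanSpace ℝ (Fin n)), P = convexHull ℝ (S : Set (EuclideanSpace ℝ (Fin n)))

/-- The dimension of a nonempty set: the dimension of the space of directions of its affine
span. -/
noncomputable def dim {n : ℕ} (F : Set (EuclideanSpace ℝ (Fin n))) : ℕ :=
  finrank ℝ (vectorSpan ℝ F)

/-- `F` is a face of `P`: a nonempty set of the form `{x ∈ P | ∀ y ∈ P, l y ≤ l x}` for a linear
functional `l` (with `l = 0` this is `P` itself). -/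
def IsFace {n : ℕ} (P F : Set (EuclideanSpace ℝ (Fin n))) : Prop :=
  F.Nonempty ∧ IsExposed ℝ P F

/-- `v` is a vertex of `P`: an extreme point. -/
def IsVertex {n : ℕ} (P : Set (EuclideanSpace ℝ (Fin n))) (v : EuclideanSpace ℝ (Fin n)) : Prop :=
  v ∈ P.extremePoints ℝ

/-- `L` is a path of `m`-faces of `P` from `v` to `w`: a nonempty finite sequence of faces of `P`
of dimension `m`, the first contains `v`, the last contains `w`, and the intersection of any two
consecutive ones is nonempty of dimension `m - 1`. -/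
structure IsPath {n : ℕ} (P : Set (EuclideanSpace ℝ (Fin n))) (m : ℕ)
    (v w : EuclideanSpace ℝ (Fin n)) (L : List (Set (EuclideanSpace ℝ (Fin n)))) : Prop where
  faces : ∀ F ∈ L, IsFace P F ∧ dim F = m
  start : ∃ F, L.head? = some F ∧ v ∈ F
  finish : ∃ F, L.getLast? = some F ∧ w ∈ F
  steps : L.IsChain fun F F' => (F ∩ F').Nonempty ∧ dim (F ∩ F') + 1 = m

/-- The type of the vertices of `P`. -/
abbrev Vert {n : ℕ} (P : Set (EuclideanSpace ℝ (Fin n))) : Type := {p // p ∈ P.extremePoints ℝ}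

/-- `A` is the vertex set of a (nonempty) face of `P`. -/
def IsFaceSet {n : ℕ} (P : Set (EuclideanSpace ℝ (Fin n))) (A : Set (Vert P)) : Prop :=
  ∃ F, IsFace P F ∧ A = {p | p.1 ∈ F}

/-- `A` is the vertex set of a proper face of `P`, the empty face included. -/
def IsProperFaceSet {n : ℕ} (P : Set (EuclideanSpace ℝ (Fin n))) (A : Set (Vert P)) : Prop :=
  A ≠ Set.univ ∧ (A = ∅ ∨ IsFaceSet P A)

/-- `R` is combinatorially the product of `P` and `Q`: with a suitable bijection `e` of the pairs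
of vertices with the vertices of `R`, the vertex sets of the faces of `R` are the products of the
vertex sets of a face of `P` and a face of `Q`. -/
def IsProduct {n m k : ℕ} (P : Set (EuclideanSpace ℝ (Fin n)))
    (Q : Set (EuclideanSpace ℝ (Fin m))) (R : Set (EuclideanSpace ℝ (Fin k))) : Prop :=
  ∃ e : Vert P × Vert Q ≃ Vert R, ∀ C : Set (Vert P × Vert Q),
    IsFaceSet R (e '' C) ↔ ∃ A B, IsFaceSet P A ∧ IsFaceSet Q B ∧ C = A ×ˢ B

/-- `R` is combinatorially the free sum of `P` and `Q`: with a suitable bijection `e` of the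
disjoint union of the two vertex sets with the vertex set of `R`, the vertex sets of the faces of
`R` other than `R` itself are the unions of the vertex sets of a proper face of `P` and a proper
face of `Q`, the empty face admitted. -/
def IsFreeSum {n m k : ℕ} (P : Set (EuclideanSpace ℝ (Fin n)))
    (Q : Set (EuclideanSpace ℝ (Fin m))) (R : Set (EuclideanSpace ℝ (Fin k))) : Prop :=
  ∃ e : Vert P ⊕ Vert Q ≃ Vert R, ∀ C : Set (Vert P ⊕ Vert Q), C.Nonempty →
    (IsFaceSet R (e '' C) ↔ C = Set.univ ∨ ∃ A B, IsProperFaceSet P A ∧ IsProperFaceSet Q B ∧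
      C = Sum.inl '' A ∪ Sum.inr '' B)

/-- The smallest class of polytopes that
* holds all polytopes of dimension at most three,
* holds a polytope `P` as soon as any two vertices `v ≠ w` of `P` are in a common face `G v w` of
  `P` from the class,
* is closed under (combinatorial) products,
* is closed under (combinatorial) free sums of polytopes of dimension at least one. -/
inductive Nice : ∀ {n : ℕ}, Set (EuclideanSpace ℝ (Fin n)) → Prop
  | low {n : ℕ} {P : Set (EuclideanSpace ℝ (Fin n))} (hP : IsPolytope P) (hd : dim P ≤ 3) :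
      Nice P
  | cover {n : ℕ} {P : Set (EuclideanSpace ℝ (Fin n))}
      (G : EuclideanSpace ℝ (Fin n) → EuclideanSpace ℝ (Fin n) → Set (EuclideanSpace ℝ (Fin n)))
      (hP : IsPolytope P)
      (hG : ∀ v w, IsVertex P v → IsVertex P w → v ≠ w →
        IsFace P (G v w) ∧ v ∈ G v w ∧ w ∈ G v w)
      (hN : ∀ v w, IsVertex P v → IsVertex P w → v ≠ w → Nice (G v w)) : Nice P
  | prod {n m k : ℕ} {P : Set (EuclideanSpace ℝ (Fin n))} {Q : Set (EuclideanSpace ℝ (Fin m))}
      {R : Set (EuclideanSpace ℝ (Fin k))} (hP : Nice P) (hQ : Nice Q) (hR : IsPolytope R)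
      (h : IsProduct P Q R) : Nice R
  | sum {n m k : ℕ} {P : Set (EuclideanSpace ℝ (Fin n))} {Q : Set (EuclideanSpace ℝ (Fin m))}
      {R : Set (EuclideanSpace ℝ (Fin k))} (hP : Nice P) (hQ : Nice Q) (hdP : 1 ≤ dim P)
      (hdQ : 1 ≤ dim Q) (hR : IsPolytope R) (h : IsFreeSum P Q R) : Nice R

section proof

open Pool.Agent.Lock

theorem IsPolytope.pt {n : ℕ} {P : Set (EuclideanSpace ℝ (Fin n))} (h : IsPolytope P) :
    Pt P := by
  obtain ⟨S, rfl⟩ := h
  exact pt_of_hull S

theorem face_iff {n : ℕ} {P : Set (EuclideanSpace ℝ (Fin n))} (hP : Pt P) {A : Set (Vert P)}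
    (hne : A.Nonempty) : Face (vec P) A ↔ IsFaceSet P A := by
  rw [face_vec_iff hP hne]
  rfl

theorem faceSet_nonempty {n : ℕ} {P : Set (EuclideanSpace ℝ (Fin n))} (hP : Pt P)
    {A : Set (Vert P)} (h : IsFaceSet P A) : A.Nonempty := by
  obtain ⟨F, ⟨h1, h2⟩, rfl⟩ := h
  exact (face_of_exposed hP.cpt hP.cvx hP.fin h2 h1).2.2

theorem properFaceSet_iff {n : ℕ} {P : Set (EuclideanSpace ℝ (Fin n))} (hP : Pt P)
    {A : Set (Vert P)} : IsProperFaceSet P A ↔ A ≠ Set.univ ∧ Face (vec P) A := by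
  haveI : Finite (Vert P) := hP.fin
  refine and_congr_right fun _ => ?_
  rcases Set.eq_empty_or_nonempty A with rfl | hne
  · exact ⟨fun _ => face_empty (vec_pos P), fun _ => Or.inl rfl⟩
  · rw [face_iff hP hne]
    exact ⟨fun h => h.resolve_left hne.ne_empty, Or.inr⟩

theorem two_le_rk {n : ℕ} {P : Set (EuclideanSpace ℝ (Fin n))} (hP : Pt P) (h : 1 ≤ dim P) :
    2 ≤ rk (vec P) Set.univ := by
  have hne : P.Nonempty := by
    rw [Set.nonempty_iff_ne_empty]
    rintro rfl
    rw [dim, vectorSpan_empty, finrank_bot] at h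
    omega
  have h1 := dim_vec hP hne
  have h2 : dim P = finrank ℝ (vectorSpan ℝ P) := rfl
  omega

theorem Nice.main {n : ℕ} {P : Set (EuclideanSpace ℝ (Fin n))} (h : Nice P) :
    Pt P ∧ HL (vec P) := by
  induction h with
  | low hP hd => exact ⟨hP.pt, hl_vec_low hP.pt hd⟩
  | cover G hP hG hN ih =>
    refine ⟨hP.pt, hl_vec_cover hP.pt fun v w hvw => ?_⟩
    have hne : v.1 ≠ w.1 := fun e => hvw (Subtype.ext e)
    obtain ⟨h1, h2, h3⟩ := hG v.1 w.1 v.2 w.2 hne
    exact ⟨G v.1 w.1, h1.2, h2, h3, (ih v.1 w.1 v.2 w.2 hne).2⟩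
  | @prod n m k P Q R _ _ hR h ihP ihQ =>
    obtain ⟨hP, hPH⟩ := ihP
    obtain ⟨hQ, hQH⟩ := ihQ
    obtain ⟨e, he⟩ := h
    have hRt := hR.pt
    haveI : Finite (Vert P) := hP.fin
    haveI : Finite (Vert Q) := hQ.fin
    haveI : Finite (Vert R) := hRt.fin
    refine ⟨hRt, (same_comp (vec R) e).hl ?_⟩
    have hPD : PD (vec P) (vec Q) (vec R ∘ e) (LinearMap.snd ℝ _ ℝ) (LinearMap.snd ℝ _ ℝ)
        (LinearMap.snd ℝ _ ℝ) := by
      refine ⟨vec_pos P, vec_pos Q, fun i => vec_pos R (e i), allExt hP.cvx hP.fin,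
        allExt hQ.cvx hQ.fin, allExt_comp e (allExt hRt.cvx hRt.fin), ?_⟩
      intro C hC
      rw [(same_comp (vec R) e).face, face_iff hRt (hC.image e), he C]
      constructor
      · rintro ⟨A, B, hA, hB, rfl⟩
        exact ⟨A, B, (face_iff hP (faceSet_nonempty hP hA)).2 hA,
          (face_iff hQ (faceSet_nonempty hQ hB)).2 hB, rfl⟩
      · rintro ⟨A, B, hA, hB, rfl⟩
        have hn := Set.prod_nonempty_iff.1 hC
        exact ⟨A, B, (face_iff hP hn.1).1 hA, (face_iff hQ hn.2).1 hB, rfl⟩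
    exact hl_prod hPD hPH hQH
  | @sum n m k P Q R _ _ hdP hdQ hR h ihP ihQ =>
    obtain ⟨hP, hPH⟩ := ihP
    obtain ⟨hQ, hQH⟩ := ihQ
    obtain ⟨e, he⟩ := h
    have hRt := hR.pt
    haveI : Finite (Vert P) := hP.fin
    haveI : Finite (Vert Q) := hQ.fin
    haveI : Finite (Vert R) := hRt.fin
    refine ⟨hRt, (same_comp (vec R) e).hl ?_⟩
    have hSD : SD (vec P) (vec Q) (vec R ∘ e) (LinearMap.snd ℝ _ ℝ) (LinearMap.snd ℝ _ ℝ)
        (LinearMap.snd ℝ _ ℝ) := by
      refine ⟨vec_pos P, vec_pos Q, fun i => vec_pos R (e i), allExt hP.cvx hP.fin,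
        allExt hQ.cvx hQ.fin, allExt_comp e (allExt hRt.cvx hRt.fin), two_le_rk hP hdP,
        two_le_rk hQ hdQ, ?_⟩
      intro C hC
      rw [(same_comp (vec R) e).face, face_iff hRt (hC.image e), he C hC]
      simp only [properFaceSet_iff hP, properFaceSet_iff hQ]
      refine or_congr_right ?_
      constructor
      · rintro ⟨A, B, ⟨h1, h2⟩, ⟨h3, h4⟩, h5⟩
        exact ⟨A, B, h2, h4, h1, h3, h5⟩
      · rintro ⟨A, B, h2, h4, h1, h3, h5⟩
        exact ⟨A, B, ⟨h1, h2⟩, ⟨h3, h4⟩, h5⟩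
    exact hl_sum hSD hPH hQH

theorem face_polytope {n : ℕ} {P F : Set (EuclideanSpace ℝ (Fin n))} (hP : IsPolytope P)
    (hF : IsFace P F) : IsPolytope F := by
  have h := hP.pt
  have hfin : (F ∩ P.extremePoints ℝ).Finite := h.fin.subset Set.inter_subset_right
  refine ⟨hfin.toFinset, ?_⟩
  rw [Set.Finite.coe_toFinset]
  exact hull_eq h.cpt h.cvx h.fin F hF.2

end proof

open Pool.Agent.Lock in
/-- **(1)** Let `v ≠ w` be vertices of the polytope `P` in a common face `G` of `P` from the class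
`Nice`, and let `dim P = c 0 + ⋯ + c (k-1)` with all `c i ≥ 1`. Then there are `k` disjoint paths
from `v` to `w`, the `i`-th one a path of `c i`-faces of `P`.
**(2)** Every polytope `P` with at most `dim P + 3` facets is in the class `Nice`. -/
theorem result :
    (∀ (n : ℕ) (P : Set (EuclideanSpace ℝ (Fin n))), IsPolytope P →
      ∀ v w : EuclideanSpace ℝ (Fin n), IsVertex P v → IsVertex P w → v ≠ w →
      ∀ G : Set (EuclideanSpace ℝ (Fin n)), IsFace P G → v ∈ G → w ∈ G → Nice G →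
      ∀ (k : ℕ) (c : Fin k → ℕ), (∀ i, 1 ≤ c i) → ∑ i, c i = dim P →
      ∃ L : Fin k → List (Set (EuclideanSpace ℝ (Fin n))),
        (∀ i, IsPath P (c i) v w (L i)) ∧
        ∀ i j, i ≠ j → ∀ F ∈ L i, ∀ F' ∈ L j, ∀ u, IsVertex P u → u ∈ F → u ∈ F' →
          u = v ∨ u = w) ∧
    (∀ (n : ℕ) (P : Set (EuclideanSpace ℝ (Fin n))), IsPolytope P →
      {F | IsFace P F ∧ dim F + 1 = dim P}.ncard ≤ dim P + 3 → Nice P) := by
  refine ⟨?_, ?_⟩
  · intro n P hP v w hv hw hvw G hG hvG hwG hN k c hc hsum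
    have hPt := hP.pt
    have hab : (⟨v, hv⟩ : Vert P) ≠ ⟨w, hw⟩ := fun e => hvw (congrArg Subtype.val e)
    have hPne : P.Nonempty := ⟨v, extremePoints_subset hv⟩
    have hd := dim_vec hPt hPne
    have h1 := lp_vec_lift hPt hG.2 hN.main.2 (a := ⟨v, hv⟩) (b := ⟨w, hw⟩) hvG hwG hab c
      (by rw [hsum]; exact hd)
    obtain ⟨L, h2, h3⟩ := lists_of_lp hPt hc h1
    exact ⟨L, fun i => ⟨(h2 i).1, (h2 i).2.1, (h2 i).2.2.1, (h2 i).2.2.2⟩, h3⟩
  · intro n P hP hF
    classical
    have hPt := hP.pt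
    have hfin : {F | IsFace P F ∧ dim F + 1 = dim P}.Finite :=
      (finite_faces hPt).subset fun F hF => hF.1
    have key : ∀ v w, IsVertex P v → IsVertex P w → v ≠ w → ∃ G, IsFace P G ∧ v ∈ G ∧ w ∈ G ∧
        dim G ≤ 3 := fun v w hv hw hvw => low_face_of_few hPt hF hfin hv hw hvw
    choose! G hG using key
    refine Nice.cover (fun v w => G v w) hP (fun v w hv hw hvw => ?_)
      fun v w hv hw hvw => ?_
    · obtain ⟨h1, h2, h3, -⟩ := hG v w hv hw hvw
      exact ⟨h1, h2, h3⟩
    · obtain ⟨h1, -, -, h4⟩ := hG v w hv hw hvw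
      exact Nice.low (face_polytope hP h1) h4

end Pool.Agent.Results.MP_b82809_co.LowDimClosure
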