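import Pool.Agent.Lock.ClsHer
import Pool.Agent.Lock.Ops
import Pool.Agent.Lock.Wedge
import Pool.Agent.Lock.Subst

set_option autoImplicit false

/-!
# MP_b82809_co, SimpleTypes

Lockeberg's conjecture holds for two vertices of a polytope that lie in a common face which is a
simple polytope whose vertex-facet incidences are in the class `Cls`, for every partition of the
dimension. The class holds the simplices and is closed under products, wedges and blendings at
faces, truncations of faces among them.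
-/

namespace Pool.Agent.Results.MP_b82809_co.SimpleTypes

open Module

/-- `P` is a polytope: the convex hull of a finite set of points. -/
def IsPolytope {n : ℕ} (P : Set (EuclideanSpace ℝ (Fin n))) : Prop :=
  ∃ S : Finset (EuclideanSpace ℝ (Fin n)), P = convexHull ℝ (S : Set (EuclideanSpace ℝ (Fin n)))

/-- The dimension of a nonempty set: the dimension of the space of directions of its affine
span. -/
noncomputable def dim {n : ℕ} (F : Set (EuclideanSpace ℝ (Fin n))) : ℕ :=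
  finrank ℝ (vectorSpan ℝ F)

/-- `F` is a face of `P`: a nonempty set of the form `{x ∈ P | ∀ y ∈ P, l y ≤ l x}` for a linear
functional `l` (with `l = 0` this is `P` itself). -/
def IsFace {n : ℕ} (P F : Set (EuclideanSpace ℝ (Fin n))) : Prop :=
  F.Nonempty ∧ IsExposed ℝ P F

/-- `v` is a vertex of `P`: an extreme point. -/
def IsVertex {n : ℕ} (P : Set (EuclideanSpace ℝ (Fin n))) (v : EuclideanSpace ℝ (Fin n)) : Prop :=
  v ∈ P.extremePoints ℝ

/-- `L` is a path of `m`-faces of `P` from `v` to `w`: a nonempty finite sequence of faces of `P`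
of dimension `m`, the first contains `v`, the last contains `w`, and the intersection of any two
consecutive ones is nonempty of dimension `m - 1`. -/
structure IsPath {n : ℕ} (P : Set (EuclideanSpace ℝ (Fin n))) (m : ℕ)
    (v w : EuclideanSpace ℝ (Fin n)) (L : List (Set (EuclideanSpace ℝ (Fin n)))) : Prop where
  faces : ∀ F ∈ L, IsFace P F ∧ dim F = m
  start : ∃ F, L.head? = some F ∧ v ∈ F
  finish : ∃ F, L.getLast? = some F ∧ w ∈ F
  steps : L.IsChain fun F F' => (F ∩ F').Nonempty ∧ dim (F ∩ F') + 1 = m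

/-- `K` is the type of `G`: for suitable sets `B j` (`j = 0, 1, 2, ...`), each of them a face of
`G` or empty, the members of `K` are the sets `{j | p ∈ B j}` of the vertices `p` of `G`, which
are finite. For a simple polytope `G` one can take the facets for the `B j`; then `K` is the set
of the facets of the simplicial complex dual to `G`. -/
def HasType {n : ℕ} (G : Set (EuclideanSpace ℝ (Fin n))) (K : Set (Finset ℕ)) : Prop :=
  ∃ B : ℕ → Set (EuclideanSpace ℝ (Fin n)), (∀ j, B j = ∅ ∨ IsFace G (B j)) ∧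
    (∀ p, IsVertex G p → ∃ σ : Finset ℕ, ∀ j, j ∈ σ ↔ p ∈ B j) ∧
    ∀ σ : Finset ℕ, σ ∈ K ↔ ∃ p, IsVertex G p ∧ ∀ j, j ∈ σ ↔ p ∈ B j

/-- The smallest class of families `K` of `d`-sets that
* holds the family of all `d`-subsets of a set of `d + 1` elements (simplices),
* is closed under joins of families on disjoint ground sets (products of polytopes),
* is closed under one-point suspensions (wedges of polytopes over a facet),
* is closed under the replacement of a face `F` of `K` by a family `L` of the class of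
  `F.card`-sets, `F ∈ L`, whose elements outside `F` are new: every member `σ ⊇ F` of `K` is
  replaced by all `τ ∪ (σ \ F)`, `F ≠ τ ∈ L` (for `L` the family of all `F.card`-subsets of
  `F ∪ {y}` this is the truncation of the face of the polytope; for `F ∈ K` it is the blending
  or connected sum at two vertices). -/
inductive Cls : ℕ → Set (Finset ℕ) → Prop
  | simplex {d : ℕ} (s : Finset ℕ) (hs : s.card = d + 1) :
      Cls d {σ | σ ⊆ s ∧ σ.card = d}
  | join {d e : ℕ} {K L : Set (Finset ℕ)} (hK : Cls d K) (hL : Cls e L)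
      (hKL : ∀ σ ∈ K, ∀ τ ∈ L, Disjoint σ τ) :
      Cls (d + e) {ρ | ∃ σ ∈ K, ∃ τ ∈ L, ρ = σ ∪ τ}
  | wedge {d : ℕ} {K : Set (Finset ℕ)} {c b : ℕ} (hK : Cls d K) (hb : ∀ σ ∈ K, b ∉ σ)
      (hc : ∃ σ ∈ K, c ∈ σ) :
      Cls (d + 1) {ρ | ∃ σ ∈ K, ρ = insert b σ ∨ (c ∉ σ ∧ ρ = insert c σ)}
  | replace {d : ℕ} {K L : Set (Finset ℕ)} {F : Finset ℕ} (hK : Cls d K) (hL : Cls F.card L)
      (hF : F ∈ L) (hnew : ∀ τ ∈ L, ∀ σ ∈ K, ∀ x ∈ τ, x ∈ σ → x ∈ F) (hex : ∃ σ ∈ K, F ⊆ σ) :
      Cls d {ρ | (ρ ∈ K ∧ ¬ F ⊆ ρ) ∨ ∃ σ ∈ K, F ⊆ σ ∧ ∃ τ ∈ L, τ ≠ F ∧ ρ = τ ∪ (σ \ F)}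

open Pool.Agent.Lock in
theorem Cls.main {d : ℕ} {K : Set (Finset ℕ)} (h : Cls d K) : PM d K ∧ Her K := by
  induction h with
  | @simplex d s hs =>
    have e : {σ : Finset ℕ | σ ⊆ s ∧ σ.card = d} = bdry s := by
      ext σ
      simp only [bdry, Set.mem_setOf_eq, hs, Nat.add_right_cancel_iff]
    rw [e]
    exact ⟨pm_bdry hs, her_bdry s⟩
  | join _ _ hKL ihK ihL =>
    exact ⟨pm_join ihK.1 ihL.1 hKL, her_join ihK.1 ihL.1 hKL ihK.2 ihL.2⟩
  | wedge _ hb hc ih => exact ⟨pm_wedge ih.1 hb hc, her_wedge ih.1 ih.2 hb hc⟩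
  | replace _ _ hF hnew hex ihK ihL =>
    have hS : Sub _ _ _ _ := ⟨ihK.1, ihL.1, hF, hnew, hex⟩
    exact ⟨pm_subst hS, her_subst hS ihK.2 ihL.2⟩

open Pool.Agent.Lock in
/-- Let `v ≠ w` be vertices of the polytope `P` in a common face `G` of `P` whose type is in the
class `Cls`, and let `dim P = c 0 + ⋯ + c (k-1)` with all `c i ≥ 1`. Then there are `k` disjoint
paths from `v` to `w`, the `i`-th one a path of `c i`-faces of `P`. -/
theorem result (n : ℕ) (P : Set (EuclideanSpace ℝ (Fin n))) (hP : IsPolytope P)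
    (v w : EuclideanSpace ℝ (Fin n)) (hv : IsVertex P v) (hw : IsVertex P w) (hvw : v ≠ w)
    (G : Set (EuclideanSpace ℝ (Fin n))) (hG : IsFace P G) (hvG : v ∈ G) (hwG : w ∈ G)
    (K : Set (Finset ℕ)) (hK : Cls (dim G) K) (hT : HasType G K)
    (k : ℕ) (c : Fin k → ℕ) (hc : ∀ i, 1 ≤ c i) (hsum : ∑ i, c i = dim P) :
    ∃ L : Fin k → List (Set (EuclideanSpace ℝ (Fin n))),
      (∀ i, IsPath P (c i) v w (L i)) ∧
      ∀ i j, i ≠ j → ∀ F ∈ L i, ∀ F' ∈ L j, ∀ u, IsVertex P u → u ∈ F → u ∈ F' →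
        u = v ∨ u = w := by
  obtain ⟨S, rfl⟩ := hP
  have hPt := pt_of_hull S
  set P := convexHull ℝ (S : Set (EuclideanSpace ℝ (Fin n))) with hPdef
  have hGt := pt_face hPt hG.2
  have hPne : P.Nonempty := ⟨v, extremePoints_subset hv⟩
  have hd := dim_vec hPt hPne
  have hve : v ∈ G.extremePoints ℝ := by
    rw [hG.2.isExtreme.extremePoints_eq]; exact ⟨hvG, hv⟩
  have hwe : w ∈ G.extremePoints ℝ := by
    rw [hG.2.isExtreme.extremePoints_eq]; exact ⟨hwG, hw⟩
  obtain ⟨hPM, hHer⟩ := hK.main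
  obtain ⟨B, hB1, hB2, hB3⟩ := hT
  have hab : (⟨v, hve⟩ : {p // p ∈ G.extremePoints ℝ}) ≠ ⟨w, hwe⟩ :=
    fun e => hvw (congrArg Subtype.val e)
  have h1 := lp_vec_lift_pair hPt hG.2 hab (fun c₀ h => lp_vec_type hGt hPM hHer rfl B hB1 hB3
    hB2 hab c₀ h) c (by rw [hsum]; exact hd)
  obtain ⟨L, h2, h3⟩ := lists_of_lp hPt hc h1
  exact ⟨L, fun i => ⟨(h2 i).1, (h2 i).2.1, (h2 i).2.2.1, (h2 i).2.2.2⟩, h3⟩

end Pool.Agent.Results.MP_b82809_co.SimpleTypes
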