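import Pool.Agent.LockFig.Real
import Pool.Agent.Lock.FigPoly

set_option autoImplicit false

/-!
# MP_b82809_co, VertexFigures

Lockeberg's conjecture for two vertices with a common neighbour `x` follows from the conjecture
for the vertex figure at `x` (all partitions at once). It holds for all `d`-polytopes with at most
`d + 5` vertices and for two vertices with a common neighbour in a face of dimension at most four.
-/

namespace Pool.Agent.Results.MP_b82809_co.VertexFigures

open Module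

/-- `P` is a polytope: the convex hull of a finite set of points. -/
def IsPolytope {n : ℕ} (P : Set (EuclideanSpace ℝ (Fin n))) : Prop :=
  ∃ S : Finset (EuclideanSpace ℝ (Fin n)), P = convexHull ℝ (S : Set (EuclideanSpace ℝ (Fin n)))

/-- The dimension of a nonempty set: the dimension of the space of directions of its affine
span. -/
noncomputable def dim {n : ℕ} (F : Set (EuclideanSpace ℝ (Fin n))) : ℕ :=
  finrank ℝ (vectorSpan ℝ F)

/-- `F` is a face of `P`: a nonempty set of the form `{x ∈ P | ∀ y ∈ P, l y ≤ l x}` for a linear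
functional `l` (with `l = 0` this is `P` itself). -/
def IsFace {n : ℕ} (P F : Set (EuclideanSpace ℝ (Fin n))) : Prop :=
  F.Nonempty ∧ IsExposed ℝ P F

/-- `v` is a vertex of `P`: an extreme point. -/
def IsVertex {n : ℕ} (P : Set (EuclideanSpace ℝ (Fin n))) (v : EuclideanSpace ℝ (Fin n)) : Prop :=
  v ∈ P.extremePoints ℝ

/-- `L` is a path of `m`-faces of `P` from `v` to `w`: a nonempty finite sequence of faces of `P`
of dimension `m`, the first contains `v`, the last contains `w`, and the intersection of any two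
consecutive ones is nonempty of dimension `m - 1`. -/
structure IsPath {n : ℕ} (P : Set (EuclideanSpace ℝ (Fin n))) (m : ℕ)
    (v w : EuclideanSpace ℝ (Fin n)) (L : List (Set (EuclideanSpace ℝ (Fin n)))) : Prop where
  faces : ∀ F ∈ L, IsFace P F ∧ dim F = m
  start : ∃ F, L.head? = some F ∧ v ∈ F
  finish : ∃ F, L.getLast? = some F ∧ w ∈ F
  steps : L.IsChain fun F F' => (F ∩ F').Nonempty ∧ dim (F ∩ F') + 1 = m

/-- The type of the vertices of `Q`. -/
abbrev Vert {n : ℕ} (Q : Set (EuclideanSpace ℝ (Fin n))) : Type := {p // p ∈ Q.extremePoints ℝ}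

/-- The type of the neighbours of `x` in `P`: the vertices `p ≠ x` of `P` such that the segment
from `x` to `p` is a face of `P`. -/
abbrev Nbr {n : ℕ} (P : Set (EuclideanSpace ℝ (Fin n))) (x : EuclideanSpace ℝ (Fin n)) : Type :=
  {p // p ∈ P.extremePoints ℝ ∧ x ≠ p ∧ IsFace P (segment ℝ x p)}

/-- `Q` is, by the bijection `e` of the neighbours of `x` in `P` with the vertices of `Q`, the
vertex figure of `P` at `x`: the vertex sets of the faces of `Q` are the images of the nonempty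
sets `{p | p ∈ F}` of neighbours, `F` a face of `P` that contains `x`. -/
def IsFigure {n m : ℕ} (P : Set (EuclideanSpace ℝ (Fin n))) (x : EuclideanSpace ℝ (Fin n))
    (Q : Set (EuclideanSpace ℝ (Fin m))) (e : Nbr P x ≃ Vert Q) : Prop :=
  ∀ C : Set (Nbr P x), C.Nonempty →
    ((∃ G, IsFace Q G ∧ e '' C = {q | q.1 ∈ G}) ↔ ∃ F, IsFace P F ∧ x ∈ F ∧ C = {p | p.1 ∈ F})

/-- `v` and `w` are linked in `P`: whenever `dim P = c 0 + ⋯ + c (k-1)` with all `c i ≥ 1`, there
are `k` disjoint paths from `v` to `w`, the `i`-th one a path of `c i`-faces of `P`. -/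
def Linked {n : ℕ} (P : Set (EuclideanSpace ℝ (Fin n))) (v w : EuclideanSpace ℝ (Fin n)) : Prop :=
  ∀ (k : ℕ) (c : Fin k → ℕ), (∀ i, 1 ≤ c i) → ∑ i, c i = dim P →
    ∃ L : Fin k → List (Set (EuclideanSpace ℝ (Fin n))),
      (∀ i, IsPath P (c i) v w (L i)) ∧
      ∀ i j, i ≠ j → ∀ F ∈ L i, ∀ F' ∈ L j, ∀ u, IsVertex P u → u ∈ F → u ∈ F' → u = v ∨ u = w

section proof

open Pool.Agent.Lock

theorem IsPolytope.pt {n : ℕ} {P : Set (EuclideanSpace ℝ (Fin n))} (h : IsPolytope P) :
    Pt P := by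
  obtain ⟨S, rfl⟩ := h
  exact pt_of_hull S

theorem face_polytope {n : ℕ} {P F : Set (EuclideanSpace ℝ (Fin n))} (hP : IsPolytope P)
    (hF : IsFace P F) : IsPolytope F := by
  have h := hP.pt
  have hfin : (F ∩ P.extremePoints ℝ).Finite := h.fin.subset Set.inter_subset_right
  refine ⟨hfin.toFinset, ?_⟩
  rw [Set.Finite.coe_toFinset]
  exact hull_eq h.cpt h.cvx h.fin F hF.2

theorem pts_pair {n : ℕ} {P : Set (EuclideanSpace ℝ (Fin n))} (a b : Vert P) :
    pts P {a, b} = segment ℝ a.1 b.1 := by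
  rw [pts, Set.image_pair, convexHull_pair]

/-- edges -/
theorem edge_iff {n : ℕ} {P : Set (EuclideanSpace ℝ (Fin n))} (hP : Pt P) (a b : Vert P) :
    Face (vec P) {a, b} ↔ IsFace P (segment ℝ a.1 b.1) := by
  constructor
  · intro h
    obtain ⟨h1, h2, -⟩ := exposed_of_face hP.cpt hP.cvx hP.fin h ⟨a, by simp⟩
    rw [pts_pair] at h1 h2
    exact ⟨h2, h1⟩
  · rintro ⟨h1, h2⟩
    have h3 := (face_of_exposed hP.cpt hP.cvx hP.fin h2 h1).1
    have h4 : {p : {p // p ∈ P.extremePoints ℝ} | p.1 ∈ segment ℝ a.1 b.1} = {a, b} := by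
      ext p
      constructor
      · intro h
        have h5 := (mem_extremePoints_iff_forall_segment.1 p.2).2 a.1 (extremePoints_subset a.2)
          b.1 (extremePoints_subset b.2) h
        rcases h5 with h5 | h5
        · exact Or.inl (Subtype.ext h5.symm)
        · exact Or.inr (Subtype.ext h5.symm)
      · rintro (rfl | rfl)
        · exact left_mem_segment ℝ _ _
        · exact right_mem_segment ℝ _ _
    rwa [h4] at h3

theorem faceSet_iff {n : ℕ} {P : Set (EuclideanSpace ℝ (Fin n))} (hP : Pt P) {A : Set (Vert P)}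
    (hne : A.Nonempty) : Face (vec P) A ↔ ∃ G, IsFace P G ∧ A = {q | q.1 ∈ G} := by
  rw [face_vec_iff hP hne]
  rfl

/-- the inclusion of the neighbours -/
def nin {n : ℕ} {P : Set (EuclideanSpace ℝ (Fin n))} {x : EuclideanSpace ℝ (Fin n)} :
    Nbr P x → Vert P := fun p => ⟨p.1, p.2.1⟩

theorem figure_of_isFigure {n m : ℕ} {P : Set (EuclideanSpace ℝ (Fin n))}
    {Q : Set (EuclideanSpace ℝ (Fin m))} {x : EuclideanSpace ℝ (Fin n)} (hx : IsVertex P x)
    (hP : Pt P) (hQ : Pt Q) (e : Nbr P x ≃ Vert Q) (he : IsFigure P x Q e) :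
    Figure (vec P) (vec Q) (⟨x, hx⟩ : Vert P) (nin ∘ e.symm) := by
  haveI : Finite (Vert P) := hP.fin
  haveI : Finite (Vert Q) := hQ.fin
  refine ⟨?_, fun i => ?_, fun B => ?_⟩
  · intro q q' h
    apply e.symm.injective
    have h2 : nin (e.symm q) = nin (e.symm q') := h
    exact Subtype.ext (congrArg (fun z : Vert P => z.1) h2)
  · constructor
    · rintro ⟨q, rfl⟩
      refine ⟨fun h => (e.symm q).2.2.1 (congrArg Subtype.val h), ?_⟩
      exact (edge_iff hP ⟨x, hx⟩ (nin (e.symm q))).2 (e.symm q).2.2.2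
    · rintro ⟨h1, h2⟩
      refine ⟨e ⟨i.1, i.2, fun h => h1 (Subtype.ext h), (edge_iff hP ⟨x, hx⟩ i).1 h2⟩, ?_⟩
      simp [nin]
  · rcases Set.eq_empty_or_nonempty B with rfl | hne
    · refine ⟨fun _ => ⟨{⟨x, hx⟩}, (allExt hP.cvx hP.fin _).1, rfl, ?_⟩,
        fun _ => face_empty (vec_pos Q)⟩
      ext q
      simp only [Set.mem_empty_iff_false, Set.mem_preimage, Set.mem_singleton_iff,
        Function.comp_apply, false_iff]
      exact fun h => (e.symm q).2.2.1 (congrArg Subtype.val h).symm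
    · have hC : e '' (e ⁻¹' B) = B := Set.image_preimage_eq B e.surjective
      have hCne : (e ⁻¹' B).Nonempty := hne.preimage e.surjective
      have h1 := he (e ⁻¹' B) hCne
      rw [hC, ← faceSet_iff hQ hne] at h1
      rw [h1]
      constructor
      · rintro ⟨F, hF, hxF, hF2⟩
        refine ⟨vs P F, (face_vs hP hF.1 hF.2).1, hxF, ?_⟩
        ext q
        have h3 : e.symm q ∈ e ⁻¹' B ↔ e.symm q ∈ {p : Nbr P x | p.1 ∈ F} := by rw [hF2]
        have h4 : e.symm q ∈ e ⁻¹' B ↔ q ∈ B := by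
          rw [Set.mem_preimage, Equiv.apply_symm_apply]
        rw [← h4, h3]
        exact Iff.rfl
      · rintro ⟨A, hA, hxA, hB⟩
        obtain ⟨h3, h4, h5⟩ := exposed_of_face hP.cpt hP.cvx hP.fin hA ⟨_, hxA⟩
        refine ⟨pts P A, ⟨h4, h3⟩, ?_, ?_⟩
        · have : (⟨x, hx⟩ : Vert P) ∈ {p : Vert P | p.1 ∈ pts P A} := by rw [h5]; exact hxA
          exact this
        · ext p
          rw [hB]
          have : nin p ∈ {q : Vert P | q.1 ∈ pts P A} ↔ nin p ∈ A := by rw [h5]
          have h6 : p ∈ e ⁻¹' ((nin ∘ e.symm) ⁻¹' A) ↔ nin p ∈ A := by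
            rw [Set.mem_preimage, Set.mem_preimage, Function.comp_apply, Equiv.symm_apply_apply]
          rw [h6]
          exact this.symm

theorem linked_of_pair {n : ℕ} {P : Set (EuclideanSpace ℝ (Fin n))} (hP : Pt P)
    {a b : {p // p ∈ P.extremePoints ℝ}} (h : PairOK (vec P) a b) : Linked P a.1 b.1 := by
  intro k c hc hsum
  have hPne : P.Nonempty := ⟨a.1, extremePoints_subset a.2⟩
  have hd := dim_vec hP hPne
  obtain ⟨L, h2, h3⟩ := lists_of_lp hP hc (h k c (by rw [hsum]; exact hd))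
  exact ⟨L, fun i => ⟨(h2 i).1, (h2 i).2.1, (h2 i).2.2.1, (h2 i).2.2.2⟩, h3⟩

theorem pair_of_linked {n : ℕ} {P : Set (EuclideanSpace ℝ (Fin n))} (hP : Pt P)
    {a b : {p // p ∈ P.extremePoints ℝ}} (h : Linked P a.1 b.1) : PairOK (vec P) a b := by
  refine pairOK_of_pos fun k c hc hsum => ?_
  have hPne : P.Nonempty := ⟨a.1, extremePoints_subset a.2⟩
  have hd := dim_vec hP hPne
  have hs : ∑ i, c i = dim P := by
    have : dim P = finrank ℝ (vectorSpan ℝ P) := rfl
    omega
  obtain ⟨L, h2, h3⟩ := h k c hc hs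
  exact lp_of_lists hP hc ⟨L, fun i => ⟨(h2 i).faces, (h2 i).start, (h2 i).finish,
    (h2 i).steps⟩, h3⟩

theorem linked_face {n : ℕ} {P G : Set (EuclideanSpace ℝ (Fin n))} {v w : EuclideanSpace ℝ (Fin n)}
    (hP : IsPolytope P) (hG : IsFace P G) (hv : IsVertex G v) (hw : IsVertex G w) (hvw : v ≠ w)
    (h : Linked G v w) : Linked P v w := by
  have hPt := hP.pt
  have hGt := (face_polytope hP hG).pt
  have h0 : PairOK (vec G) (⟨v, hv⟩ : Vert G) ⟨w, hw⟩ := pair_of_linked hGt h
  have h1 : PairOK (vec P) (inc hG.2 ⟨v, hv⟩) (inc hG.2 ⟨w, hw⟩) := by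
    intro k c hc
    exact lp_vec_lift_pair hPt hG.2 (fun e => hvw (congrArg Subtype.val e))
      (fun c₀ h2 => h0 k c₀ h2) c hc
  exact linked_of_pair hPt h1

theorem linked_figure {n m : ℕ} {P : Set (EuclideanSpace ℝ (Fin n))}
    {Q : Set (EuclideanSpace ℝ (Fin m))} {x : EuclideanSpace ℝ (Fin n)} (hP : IsPolytope P)
    (hQ : IsPolytope Q) (hx : IsVertex P x) (e : Nbr P x ≃ Vert Q) (he : IsFigure P x Q e)
    (p q : Nbr P x) (hpq : p.1 ≠ q.1) (h : Linked Q (e p).1 (e q).1) : Linked P p.1 q.1 := by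
  have hPt := hP.pt
  have hQt := hQ.pt
  haveI : Finite (Vert P) := hPt.fin
  haveI : Finite (Vert Q) := hQt.fin
  have h0 : PairOK (vec Q) (e p) (e q) := pair_of_linked hQt h
  have hfig := figure_of_isFigure hx hPt hQt e he
  have hne : e p ≠ e q := fun h => hpq (congrArg Subtype.val (e.injective h))
  have h1 : PairOK (vec P) (⟨p.1, p.2.1⟩ : Vert P) ⟨q.1, q.2.1⟩ := by
    intro k c hc
    have h2 := hfig.lp (vec_pos P) (allExt hPt.cvx hPt.fin) (vec_pos Q) hne
      (κ' := Fin k) (fun c' hc' => h0 k c' hc') c hc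
    have e1 : (nin ∘ e.symm) (e p) = (⟨p.1, p.2.1⟩ : Vert P) := by simp [nin]
    have e2 : (nin ∘ e.symm) (e q) = (⟨q.1, q.2.1⟩ : Vert P) := by simp [nin]
    rw [e1, e2] at h2
    exact h2
  exact linked_of_pair hPt h1

theorem linked_low {n : ℕ} {P : Set (EuclideanSpace ℝ (Fin n))} {v w : EuclideanSpace ℝ (Fin n)}
    (hP : IsPolytope P) (hd : dim P ≤ 3) (hv : IsVertex P v) (hw : IsVertex P w) (hvw : v ≠ w) :
    Linked P v w := by
  refine linked_of_pair (a := ⟨v, hv⟩) (b := ⟨w, hw⟩) hP.pt fun k c hc => ?_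
  exact hl_vec_low hP.pt hd _ Face.univ _ (Set.mem_univ _) _ (Set.mem_univ _)
    (fun h => hvw (congrArg Subtype.val h)) k c hc

theorem vertex_face {n : ℕ} {P G : Set (EuclideanSpace ℝ (Fin n))} {v : EuclideanSpace ℝ (Fin n)}
    (hG : IsFace P G) (hv : IsVertex P v) (hvG : v ∈ G) : IsVertex G v := by
  rw [IsVertex, hG.2.isExtreme.extremePoints_eq]; exact ⟨hvG, hv⟩

theorem card_vert {n : ℕ} (P : Set (EuclideanSpace ℝ (Fin n))) :
    Nat.card (Vert P) = {p | IsVertex P p}.ncard := Nat.card_coe_set_eq _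

/-- Every vertex has a vertex figure. -/
theorem exists_figure {n : ℕ} {P : Set (EuclideanSpace ℝ (Fin n))} (hP : IsPolytope P)
    (z : Vert P) (hne : Nonempty (Nbr P z.1)) :
    ∃ (m : ℕ) (Q : Set (EuclideanSpace ℝ (Fin m))) (e : Nbr P z.1 ≃ Vert Q), IsPolytope Q ∧
      IsFigure P z.1 Q e ∧ dim Q + 1 = dim P ∧
      {p | IsVertex Q p}.ncard + 1 ≤ {p | IsVertex P p}.ncard := by
  have hPt := hP.pt
  haveI : Finite (Vert P) := hPt.fin
  have hφ := vec_pos P
  have hE : AllExt (vec P) := allExt hPt.cvx hPt.fin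
  have hPne : P.Nonempty := ⟨z.1, extremePoints_subset z.2⟩
  have hr : dim P + 1 = rk (vec P) Set.univ := dim_vec hPt hPne
  have hfig := figure_figc hφ hE z
  obtain ⟨φ', hφ'⟩ := figc_pos hE z
  have hEy := hfig.allExt hφ hE hφ'
  obtain ⟨m, Q, hQp, e', he'⟩ := exists_polytope' hφ' hEy
  have hQp : IsPolytope Q := hQp
  have hQt := hQp.pt
  haveI : Finite (Vert Q) := hQt.fin
  -- the equivalence of the two kinds of neighbours
  let f : Nbr P z.1 ≃ Nb1 (vec P) z :=
    { toFun := fun p => ⟨⟨p.1, p.2.1⟩, fun h => p.2.2.1 (congrArg Subtype.val h),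
        (edge_iff hPt z ⟨p.1, p.2.1⟩).2 p.2.2.2⟩
      invFun := fun k => ⟨k.1.1, k.1.2, fun h => k.2.1 (Subtype.ext h),
        (edge_iff hPt z k.1).1 k.2.2⟩
      left_inv := fun p => rfl
      right_inv := fun k => rfl }
  set e : Nbr P z.1 ≃ Vert Q := f.trans e' with he
  refine ⟨m, Q, e, hQp, ?_, ?_, ?_⟩
  · intro C hC
    have himg : e '' C = e' '' (f '' C) := by
      rw [← Set.image_comp]; rfl
    rw [← faceSet_iff hQt (hC.image e), himg, ← he' (f '' C), hfig.face]
    constructor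
    · rintro ⟨A, hA, hzA, hCA⟩
      obtain ⟨h3, h4, h5⟩ := exposed_of_face hPt.cpt hPt.cvx hPt.fin hA ⟨_, hzA⟩
      refine ⟨pts P A, ⟨h4, h3⟩, ?_, ?_⟩
      · have : z ∈ {p : Vert P | p.1 ∈ pts P A} := by rw [h5]; exact hzA
        exact this
      · ext p
        have h6 : p ∈ C ↔ f p ∈ f '' C := (f.injective.mem_set_image).symm
        rw [h6, hCA]
        have h7 : (f p).1 ∈ {q : Vert P | q.1 ∈ pts P A} ↔ (f p).1 ∈ A := by rw [h5]
        exact h7.symm
    · rintro ⟨F, hF, hzF, hCF⟩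
      refine ⟨vs P F, (face_vs hPt hF.1 hF.2).1, hzF, ?_⟩
      ext k
      obtain ⟨p, rfl⟩ := f.surjective k
      rw [f.injective.mem_set_image, hCF]
      rfl
  · have hsame := same_of_face hφ' (vec_pos Q) e' fun A _ => he' A
    have hrQ := hsame.rk Set.univ Face.univ
    rw [Set.image_univ, e'.range_eq_univ] at hrQ
    have hrz := hfig.rk hφ hE hφ' (Face.univ (x := figc (vec P) z))
    rw [hfig.hat_univ hφ hE] at hrz
    obtain ⟨p⟩ := hne
    have hQne : Q.Nonempty := ⟨(e p).1, extremePoints_subset (e p).2⟩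
    have hdQ : dim Q + 1 = rk (vec Q) Set.univ := dim_vec hQt hQne
    omega
  · rw [← card_vert Q, ← card_vert P, ← Nat.card_congr e']
    have h2 : Nat.card (Nb1 (vec P) z) = {i | z ≠ i ∧ Face (vec P) {z, i}}.ncard :=
      Nat.card_coe_set_eq _
    have h3 : ({i | z ≠ i ∧ Face (vec P) {z, i}} : Set (Vert P)).ncard + 1 ≤
        (Set.univ : Set (Vert P)).ncard := by
      rw [← Set.ncard_insert_of_notMem (a := z) (fun h => h.1 rfl) (Set.toFinite _)]
      exact Set.ncard_le_ncard (Set.subset_univ _) (Set.toFinite _)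
    rw [Set.ncard_univ] at h3
    rw [h2]
    exact h3

theorem linked_of_few (d : ℕ) : ∀ (n : ℕ) (P : Set (EuclideanSpace ℝ (Fin n))), IsPolytope P →
    dim P = d → {p | IsVertex P p}.ncard ≤ d + 5 → ∀ v w, IsVertex P v → IsVertex P w →
      v ≠ w → Linked P v w := by
  induction d with
  | zero => intro n P hP hd _ v w hv hw hvw; exact linked_low hP (by omega) hv hw hvw
  | succ d ih =>
    intro n P hP hd hcard v w hv hw hvw
    by_cases hd3 : d + 1 ≤ 3
    · exact linked_low hP (by omega) hv hw hvw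
    have hPt := hP.pt
    haveI : Finite (Vert P) := hPt.fin
    have hφ := vec_pos P
    have hE : AllExt (vec P) := allExt hPt.cvx hPt.fin
    have hne : P.Nonempty := ⟨v, extremePoints_subset hv⟩
    have hr : dim P + 1 = rk (vec P) Set.univ := dim_vec hPt hne
    set a : Vert P := ⟨v, hv⟩ with ha
    set b : Vert P := ⟨w, hw⟩ with hb
    have hab : a ≠ b := fun h => hvw (congrArg Subtype.val h)
    by_cases hadj : Face (vec P) {a, b}
    · have hF := (edge_iff hPt a b).1 hadj
      have hvF := vertex_face hF hv (left_mem_segment ℝ _ _)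
      have hwF := vertex_face hF hw (right_mem_segment ℝ _ _)
      refine linked_face hP hF hvF hwF hvw (linked_low (face_polytope hP hF) ?_ hvF hwF hvw)
      have h1 := dim_pts P (A := {a, b}) ⟨a, by simp⟩
      rw [rk_pair hE hab, pts_pair] at h1
      have h2 : dim (segment ℝ a.1 b.1) + 1 = 2 := h1
      omega
    · have hcn : Nat.card {p // p ∈ P.extremePoints ℝ} ≤ rk (vec P) Set.univ + 4 := by
        have : Nat.card {p // p ∈ P.extremePoints ℝ} = {p | IsVertex P p}.ncard := card_vert P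
        omega
      obtain ⟨z, ⟨za, hza⟩, ⟨zb, hzb⟩⟩ := exists_common hφ hE (by omega) hcn hab hadj
      set p : Nbr P z.1 := ⟨v, hv, fun h => za (Subtype.ext h), (edge_iff hPt z a).1 hza⟩ with hp
      set q : Nbr P z.1 := ⟨w, hw, fun h => zb (Subtype.ext h), (edge_iff hPt z b).1 hzb⟩ with hq
      obtain ⟨m, Q, e, hQp, hfig, hdim, hc⟩ := exists_figure hP z ⟨p⟩
      have hok := ih m Q hQp (by omega) (by omega) (e p).1 (e q).1 (e p).2 (e q).2 fun h => by
        have h1 : e p = e q := Subtype.ext h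
        exact hvw (congrArg Subtype.val (e.injective h1))
      exact linked_figure hP hQp z.2 e hfig p q hvw hok

theorem dim_singleton' {n : ℕ} (x : EuclideanSpace ℝ (Fin n)) :
    dim ({x} : Set (EuclideanSpace ℝ (Fin n))) = 0 := by
  rw [dim, vectorSpan_singleton, finrank_bot]

theorem dim_segment_ne {n : ℕ} {x y : EuclideanSpace ℝ (Fin n)} (h : x ≠ y) :
    dim (segment ℝ x y) = 1 := by
  have h1 : vectorSpan ℝ (segment ℝ x y) = Submodule.span ℝ {x - y} := by
    rw [← direction_affineSpan, ← convexHull_pair, affineSpan_convexHull, direction_affineSpan,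
      vectorSpan_pair]
    rfl
  rw [dim, h1, finrank_span_singleton (sub_ne_zero.2 h)]

theorem eq_of_vertex_segment {n : ℕ} {P : Set (EuclideanSpace ℝ (Fin n))}
    {x y z : EuclideanSpace ℝ (Fin n)} (hx : IsVertex P x) (hy : IsVertex P y)
    (hz : IsVertex P z) (h : z ∈ segment ℝ x y) : z = x ∨ z = y := by
  rcases (mem_extremePoints_iff_forall_segment.1 hz).2 x (extremePoints_subset hx)
    y (extremePoints_subset hy) h with h5 | h5
  · exact Or.inl h5.symm
  · exact Or.inr h5.symm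

theorem edges_inter {n : ℕ} {P : Set (EuclideanSpace ℝ (Fin n))} (hP : Pt P)
    {x : EuclideanSpace ℝ (Fin n)} (hx : IsVertex P x) (p q : Nbr P x) (hpq : p.1 ≠ q.1) :
    segment ℝ x p.1 ∩ segment ℝ x q.1 = {x} := by
  have h1 : IsExposed ℝ P (segment ℝ x p.1 ∩ segment ℝ x q.1) := p.2.2.2.2.inter q.2.2.2.2
  rw [hull_eq hP.cpt hP.cvx hP.fin _ h1]
  have h2 : segment ℝ x p.1 ∩ segment ℝ x q.1 ∩ P.extremePoints ℝ = {x} := by
    ext y
    constructor
    · rintro ⟨⟨h3, h4⟩, h5⟩
      rcases eq_of_vertex_segment hx p.2.1 h5 h3 with h6 | h6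
      · exact h6
      · rcases eq_of_vertex_segment hx q.2.1 h5 h4 with h7 | h7
        · exact h7
        · exact absurd (h6.symm.trans h7) hpq
    · rintro rfl
      exact ⟨⟨left_mem_segment ℝ _ _, left_mem_segment ℝ _ _⟩, hx⟩
  rw [h2, convexHull_singleton]

theorem linked_near {n : ℕ} {P : Set (EuclideanSpace ℝ (Fin n))} (hP : IsPolytope P)
    {x : EuclideanSpace ℝ (Fin n)} (hx : IsVertex P x) (p q : Nbr P x) (hpq : p.1 ≠ q.1)
    (h : dim P ≤ 4 ∨ {F | IsFace P F ∧ dim F + 1 = dim P ∧ x ∈ F}.ncard ≤ dim P + 2) :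
    Linked P p.1 q.1 := by
  have hPt := hP.pt
  have hcap := edges_inter hPt hx p q hpq
  have sing : ∀ z : EuclideanSpace ℝ (Fin n), IsVertex P z → IsFace P {z} := by
    intro z hz
    have h1 := (allExt hPt.cvx hPt.fin (⟨z, hz⟩ : Vert P)).1
    obtain ⟨h2, h3, -⟩ := exposed_of_face hPt.cpt hPt.cvx hPt.fin h1 ⟨⟨z, hz⟩, rfl⟩
    have h4 : pts P {(⟨z, hz⟩ : Vert P)} = {z} := by
      rw [pts, Set.image_singleton, convexHull_singleton]
    rw [h4] at h2 h3
    exact ⟨h3, h2⟩
  set A : ℕ → Set (EuclideanSpace ℝ (Fin n)) := fun j => if j = 0 then {p.1} else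
    segment ℝ x p.1 with hA
  set B : ℕ → Set (EuclideanSpace ℝ (Fin n)) := fun j => if j = 0 then {q.1} else
    segment ℝ x q.1 with hB
  have hA0 : A 0 = {p.1} := if_pos rfl
  have hB0 : B 0 = {q.1} := if_pos rfl
  have hA1 : A 1 = segment ℝ x p.1 := if_neg one_ne_zero
  have hB1 : B 1 = segment ℝ x q.1 := if_neg one_ne_zero
  have key := flag_poly hPt ⟨p.1, p.2.1⟩ ⟨q.1, q.2.1⟩ hPt 1 A B hA0 hB0
    (fun j hj => ?_) (fun j hj => ?_) (fun j hj => ?_) (fun j hj => ?_) (fun j hj1 hj => ?_)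
    (v := p.1) (w := q.1) ?_ ?_ ?_ (a := ⟨p.1, p.2.1⟩) (b := ⟨q.1, q.2.1⟩) rfl rfl
  · exact linked_of_pair hPt key.2
  · rcases Nat.le_one_iff_eq_zero_or_eq_one.1 hj with rfl | rfl
    · rw [hA0]
      exact ⟨sing _ p.2.1, dim_singleton' _⟩
    · rw [hA1]
      exact ⟨p.2.2.2, dim_segment_ne p.2.2.1⟩
  · rcases Nat.le_one_iff_eq_zero_or_eq_one.1 hj with rfl | rfl
    · rw [hB0]
      exact ⟨sing _ q.2.1, dim_singleton' _⟩
    · rw [hB1]
      exact ⟨q.2.2.2, dim_segment_ne q.2.2.1⟩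
  · have : j = 0 := by omega
    subst this
    rw [hA0, hA1]
    exact Set.singleton_subset_iff.2 (right_mem_segment ℝ _ _)
  · have : j = 0 := by omega
    subst this
    rw [hB0, hB1]
    exact Set.singleton_subset_iff.2 (right_mem_segment ℝ _ _)
  · have : j = 1 := by omega
    subst this
    rw [hA1, hB1, hcap]
    exact ⟨Set.singleton_nonempty x, by
      have := dim_singleton' x
      have h2 : finrank ℝ (vectorSpan ℝ ({x} : Set (EuclideanSpace ℝ (Fin n)))) = 0 := this
      rw [h2]⟩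
  · rw [hB1]
    intro h1
    rcases eq_of_vertex_segment hx q.2.1 p.2.1 h1 with h2 | h2
    · exact p.2.2.1 h2.symm
    · exact hpq h2
  · rw [hA1]
    intro h1
    rcases eq_of_vertex_segment hx p.2.1 q.2.1 h1 with h2 | h2
    · exact q.2.2.1 h2.symm
    · exact hpq h2.symm
  · rcases h with h | h
    · exact Or.inl h
    · refine Or.inr (Or.inl ?_)
      rw [hA1, hB1, hcap]
      have e1 : {F : Set (EuclideanSpace ℝ (Fin n)) | ((F.Nonempty ∧ IsExposed ℝ P F) ∧
          finrank ℝ (vectorSpan ℝ F) + 1 = finrank ℝ (vectorSpan ℝ P)) ∧ {x} ⊆ F} =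
          {F | IsFace P F ∧ dim F + 1 = dim P ∧ x ∈ F} := by
        ext F
        simp only [Set.mem_setOf_eq, Set.singleton_subset_iff]
        exact ⟨fun ⟨⟨h1, h2⟩, h3⟩ => ⟨h1, h2, h3⟩, fun ⟨h1, h2, h3⟩ => ⟨⟨h1, h2⟩, h3⟩⟩
      rw [e1]
      have : finrank ℝ (vectorSpan ℝ P) = dim P := rfl
      omega

end proof

/-- Let `P` be a polytope in `ℝ^n` and `v ≠ w` vertices of `P`.
**(1)** If `v`, `w` lie in a face `G` of `P` and are linked in `G`, they are linked in `P`.
**(2)** If `p ≠ q` are neighbours of the vertex `x`, the polytope `Q` is by `e` the vertex figure of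
`P` at `x`, and `e p`, `e q` are linked in `Q`, then `p` and `q` are linked in `P`.
**(3)** If `P` has at most `dim P + 5` vertices, then `v` and `w` are linked in `P`.
**(4)** If `v`, `w` lie in a face `G` of `P` and have a common neighbour `x` in `G`, and `dim G ≤ 4`
or at most `dim G + 2` facets of `G` contain `x`, then `v` and `w` are linked in `P`. -/
theorem result (n : ℕ) (P : Set (EuclideanSpace ℝ (Fin n))) (hP : IsPolytope P)
    (v w : EuclideanSpace ℝ (Fin n)) (hv : IsVertex P v) (hw : IsVertex P w) (hvw : v ≠ w) :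
    (∀ G, IsFace P G → v ∈ G → w ∈ G → Linked G v w → Linked P v w) ∧
    (∀ (x : EuclideanSpace ℝ (Fin n)) (m : ℕ) (Q : Set (EuclideanSpace ℝ (Fin m)))
      (e : Nbr P x ≃ Vert Q), IsVertex P x → IsPolytope Q → IsFigure P x Q e →
      ∀ p q : Nbr P x, p.1 = v → q.1 = w → Linked Q (e p).1 (e q).1 → Linked P v w) ∧
    ({p | IsVertex P p}.ncard ≤ dim P + 5 → Linked P v w) ∧
    (∀ G x, IsFace P G → v ∈ G → w ∈ G → x ∈ G → IsVertex P x → x ≠ v → x ≠ w →
      IsFace P (segment ℝ x v) → IsFace P (segment ℝ x w) →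
      (dim G ≤ 4 ∨ {F | IsFace G F ∧ dim F + 1 = dim G ∧ x ∈ F}.ncard ≤ dim G + 2) →
      Linked P v w) := by
  refine ⟨?_, ?_, ?_, ?_⟩
  · intro G hG hvG hwG h
    exact linked_face hP hG (vertex_face hG hv hvG) (vertex_face hG hw hwG) hvw h
  · rintro x m Q e hx hQ he p q rfl rfl h
    exact linked_figure hP hQ hx e he p q hvw h
  · intro h
    exact linked_of_few (dim P) n P hP rfl h v w hv hw hvw
  · intro G x hG hvG hwG hxG hx hxv hxw h1 h2 h3
    have hGp := face_polytope hP hG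
    have hv' := vertex_face hG hv hvG
    have hw' := vertex_face hG hw hwG
    have hx' := vertex_face hG hx hxG
    have hcv : Convex ℝ G := hGp.pt.cvx
    have hsub : G ⊆ P := hG.2.subset
    have edge : ∀ z ∈ G, IsFace P (segment ℝ x z) → IsFace G (segment ℝ x z) := by
      intro z hz hF
      refine ⟨hF.1, ?_⟩
      have h4 := hF.2.inter_left (hcv.segment_subset hxG hz)
      rwa [Set.inter_eq_right.2 hsub] at h4
    exact linked_face hP hG hv' hw' hvw (linked_near hGp hx' ⟨v, hv', hxv, edge v hvG h1⟩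
      ⟨w, hw', hxw, edge w hwG h2⟩ hvw h3)

end Pool.Agent.Results.MP_b82809_co.VertexFigures
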